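import Pool.Agent.Lib.MP_3ee548_nt.RS.Iface

/-!
# Module ASMB of the RS board (MP_3ee548_nt): `PA b` gives `PB (5 - (2b-1)/(b-1))`
-/

set_option autoImplicit false

open scoped BigOperators
open Classical

namespace Pool.Agent.Lib.MP_3ee548_nt.RS.H70

open Pool.Agent.Lib.MP_3ee548_nt.RS

lemma sb_neg_norm (k : ℕ) (t : ℝ) : ‖SB k (-t)‖ = ‖SB k t‖ := by
  have h : SB k (-t) = (starRingEnd ℂ) (SB k t) := by
    unfold SB
    rw [map_sum]
    refine Finset.sum_congr rfl (fun m _ => ?_)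
    rw [map_mul, Complex.conj_ofReal]
    congr 1
    unfold e
    rw [← Complex.exp_conj]
    congr 1
    rw [map_mul, Complex.conj_ofReal, Complex.conj_I]
    push_cast
    ring
  rw [h, RCLike.norm_conj]

lemma sb_cont (k : ℕ) : Continuous (fun t : ℝ => SB k t) := by
  unfold SB e
  refine continuous_finsetSum _ (fun m _ => ?_)
  fun_prop

lemma q_anti (lam : ℕ → ℝ) (D : Finset ℕ) (T T' : ℝ) (hT : 0 < T) (h : T ≤ T') :
    Q lam D T' ≤ Q lam D T := by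
  unfold Q PC
  have : (((D ×ˢ D) ×ˢ (D ×ˢ D)).filter (fun p : (ℕ × ℕ) × (ℕ × ℕ) =>
      |(lam p.1.1 + lam p.1.2) - (lam p.2.1 + lam p.2.2)| ≤ 1 / T')).card ≤
      (((D ×ˢ D) ×ˢ (D ×ˢ D)).filter (fun p : (ℕ × ℕ) × (ℕ × ℕ) =>
      |(lam p.1.1 + lam p.1.2) - (lam p.2.1 + lam p.2.2)| ≤ 1 / T)).card := by
    apply Finset.card_le_card
    intro p hp
    rw [Finset.mem_filter] at hp ⊢
    exact ⟨hp.1, hp.2.trans (one_div_le_one_div_of_le hT h)⟩
  exact_mod_cast this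

lemma hh_lower (z : ℝ) (h1 : 1 ≤ z) (h2 : z ≤ 2) : 1 ≤ (3 * Real.exp 8) * H z := by
  have hz0 : 0 < z := by linarith
  have h3 : 1 ≤ Real.exp 8 * h0 z := by
    unfold h0
    rw [← Real.exp_add]
    apply Real.one_le_exp
    have h3 : z + 1 / z ≤ 5 / 2 := by
      have h4 : 1 / z * z = 1 := by
        rw [div_mul_cancel₀]
        exact hz0.ne'
      have h5 : 0 < 1 / z := by positivity
      by_contra hcon
      rw [not_le] at hcon
      have h6 : (5 / 2) * z < (z + 1 / z) * z := mul_lt_mul_of_pos_right hcon hz0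
      nlinarith
    have h4 : 0 ≤ z + 1 / z := by positivity
    have hpi := Real.pi_lt_d2
    have hpi0 := Real.pi_pos
    have h5 : Real.pi * (z + 1 / z) ≤ 3.15 * (5 / 2) := by
      apply mul_le_mul hpi.le h3 h4 (by norm_num)
    have h6 : -Real.pi * (z + 1 / z) = -(Real.pi * (z + 1 / z)) := by ring
    rw [h6]
    norm_num at h5 ⊢
    linarith
  have h4 : 1 ≤ 3 * z ^ (-(3 / 2) : ℝ) := by
    have h5 : z ^ (3 / 2 : ℝ) ≤ 3 := by
      have h6 : z ^ (3 / 2 : ℝ) ≤ (2 : ℝ) ^ (3 / 2 : ℝ) :=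
        Real.rpow_le_rpow hz0.le h2 (by norm_num)
      have h7 : ((2 : ℝ) ^ (3 / 2 : ℝ)) ^ 2 = 8 := by
        rw [← Real.rpow_natCast, ← Real.rpow_mul (by norm_num)]
        norm_num
      have h8 : (0 : ℝ) ≤ (2 : ℝ) ^ (3 / 2 : ℝ) := by positivity
      nlinarith
    rw [Real.rpow_neg hz0.le]
    have h9 : 0 < z ^ (3 / 2 : ℝ) := by positivity
    rw [← div_eq_mul_inv, le_div_iff₀ h9]
    linarith
  unfold H
  have h5 : (3 * Real.exp 8) * (z ^ (-(3 / 2) : ℝ) * h0 z)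
      = (3 * z ^ (-(3 / 2) : ℝ)) * (Real.exp 8 * h0 z) := by ring
  rw [h5]
  nlinarith

lemma block_div (k m : ℕ) (hm : m ∈ blk k) :
    1 ≤ (m : ℝ) / 2 ^ k ∧ (m : ℝ) / 2 ^ k ≤ 2 := by
  unfold blk at hm
  rw [Finset.mem_Ico] at hm
  have hK : (0 : ℝ) < 2 ^ k := by positivity
  have h1 : (2 : ℝ) ^ k ≤ m := by exact_mod_cast hm.1
  have h2 : (m : ℝ) ≤ 2 * 2 ^ k := by
    have : (m : ℝ) ≤ 2 ^ (k + 1) := by exact_mod_cast hm.2.le
    rw [pow_succ] at this
    linarith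
  constructor
  · rw [le_div_iff₀ hK]
    linarith
  · rw [div_le_iff₀ hK]
    linarith

lemma k_le (ε : ℝ) (hε : 0 < ε) (k : ℕ) :
    (k : ℝ) ≤ 2 / (ε * Real.log 2) * ((2 : ℝ) ^ k) ^ (ε / 2) := by
  have hl : 0 < Real.log 2 := Real.log_pos (by norm_num)
  have h1 : ((2 : ℝ) ^ k) ^ (ε / 2) = Real.exp ((k : ℝ) * Real.log 2 * (ε / 2)) := by
    rw [Real.rpow_def_of_pos (by positivity), Real.log_pow]
  have h2 := Real.add_one_le_exp ((k : ℝ) * Real.log 2 * (ε / 2))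
  rw [← h1] at h2
  have h3 : (k : ℝ) * Real.log 2 * (ε / 2) ≤ ((2 : ℝ) ^ k) ^ (ε / 2) := by linarith
  rw [div_mul_eq_mul_div, le_div_iff₀ (by positivity)]
  nlinarith

theorem asmb (h1 : Qpos1Statement) (h2 : LowbStatement) (h3 : IntbStatement) :
    AsmbStatement := by
  intro b hb2 hb3 hPA ε hε
  obtain ⟨C1, hC1, hlow⟩ := h2
  obtain ⟨C2, hC2, hint⟩ := h3 b hb2 hb3 hPA (ε / 2) (by linarith)
  have hb1 : 0 < b - 1 := by linarith
  obtain ⟨a, ha⟩ : ∃ a : ℝ, a = (2 * b - 1) / (b - 1) := ⟨_, rfl⟩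
  have hab : a * (b - 1) = 2 * b - 1 := by
    rw [ha]
    field_simp
  have ha1 : 1 ≤ a := by
    rw [ha, le_div_iff₀ hb1]
    linarith
  have ha2 : a ≤ 3 := by
    rw [ha, div_le_iff₀ hb1]
    linarith
  rw [← ha]
  have hl : 0 < Real.log 2 := Real.log_pos (by norm_num)
  obtain ⟨L, hL⟩ : ∃ L : ℝ, L = 2 / (ε * Real.log 2) := ⟨_, rfl⟩
  have hL0 : 0 < L := by
    rw [hL]
    positivity
  obtain ⟨c0, hc0⟩ : ∃ c0 : ℝ, c0 = 3 * Real.exp 8 := ⟨_, rfl⟩
  have hc00 : 0 < c0 := by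
    rw [hc0]
    positivity
  refine ⟨16 * c0 ^ 4 * (C1 ^ 4 + 4 * C2 * L), by positivity, fun k => ?_⟩
  have hlowk := hlow k
  have hintk := hint k
  have hkL := k_le ε hε k
  rw [← hL] at hkL
  have hSb := block_div k
  have hSB : ∀ t : ℝ, ∑ i ∈ Finset.Ico (1 : ℕ) (2 ^ (2 * k + 4)),
      (((c0 * H ((i : ℝ) / 2 ^ k) : ℝ)) : ℂ) * e (t * rcp i)
      = ((c0 : ℝ) : ℂ) * SB k t := by
    intro t
    unfold SB
    rw [Finset.mul_sum]
    refine Finset.sum_congr rfl (fun m _ => ?_)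
    push_cast
    ring
  obtain ⟨K, hK⟩ : ∃ K : ℝ, K = (2 : ℝ) ^ k := ⟨_, rfl⟩
  have hK1 : 1 ≤ K := by
    rw [hK]
    exact one_le_pow₀ (by norm_num)
  have hK0 : 0 < K := by linarith
  obtain ⟨T, hT⟩ : ∃ T : ℝ, T = K ^ a := ⟨_, rfl⟩
  have hT0 : 0 < T := by
    rw [hT]
    positivity
  have hTK : T ≤ K ^ (3 : ℝ) := by
    rw [hT]
    exact Real.rpow_le_rpow_of_exponent_le hK1 ha2
  have hK3 : K ^ (3 : ℝ) = K ^ 3 := by
    rw [← Real.rpow_natCast]
    norm_num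
  -- step 1: Q at K^3 against the integral
  have hQ : Q rcp (blk k) (K ^ (3 : ℝ)) ≤
      8 / T * ∫ t in (-T)..T, ‖((c0 : ℝ) : ℂ) * SB k t‖ ^ 4 := by
    have hq := h1 rcp (fun m => c0 * H ((m : ℝ) / 2 ^ k)) (blk k)
      (Finset.Ico (1 : ℕ) (2 ^ (2 * k + 4))) T hT0 ?_ ?_ ?_
    · simp only [hSB] at hq
      exact (q_anti rcp (blk k) T _ hT0 hTK).trans hq
    · intro m hm
      unfold blk at hm
      rw [Finset.mem_Ico] at hm ⊢
      refine ⟨le_trans (Nat.one_le_two_pow) hm.1, lt_of_lt_of_le hm.2 ?_⟩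
      exact Nat.pow_le_pow_right (by norm_num) (by omega)
    · intro i _
      unfold H h0
      positivity
    · intro i hi
      rw [hc0]
      exact hh_lower _ (hSb i hi).1 (hSb i hi).2
  -- the integrand
  obtain ⟨f, hf⟩ : ∃ f : ℝ → ℝ, f = fun t => ‖SB k t‖ ^ 4 := ⟨_, rfl⟩
  have hfc : Continuous f := by
    rw [hf]
    exact ((sb_cont k).norm).pow 4
  have hf0 : ∀ t, 0 ≤ f t := by
    intro t
    rw [hf]
    positivity
  have hfi : ∀ x y : ℝ, IntervalIntegrable f MeasureTheory.volume x y :=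
    fun x y => hfc.intervalIntegrable x y
  have heven : ∫ t in (-T)..T, f t = 2 * ∫ t in (0 : ℝ)..T, f t := by
    rw [← intervalIntegral.integral_add_adjacent_intervals (hfi (-T) 0) (hfi 0 T)]
    have h := intervalIntegral.integral_comp_neg (a := (0 : ℝ)) (b := T) (f := f)
    rw [neg_zero] at h
    rw [← h]
    have h' : (fun x => f (-x)) = f := by
      funext x
      rw [hf]
      simp only
      rw [sb_neg_norm]
    rw [h']
    ring
  have hQ2 : Q rcp (blk k) (K ^ (3 : ℝ)) ≤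
      16 * c0 ^ 4 / T * ∫ t in (0 : ℝ)..T, f t := by
    refine hQ.trans (le_of_eq ?_)
    have h : (fun t : ℝ => ‖((c0 : ℝ) : ℂ) * SB k t‖ ^ 4)
        = fun t => c0 ^ 4 * f t := by
      funext t
      rw [hf]
      simp only
      rw [norm_mul, mul_pow, Complex.norm_real, Real.norm_of_nonneg hc00.le]
    rw [h, intervalIntegral.integral_const_mul, heven]
    ring
  -- step 2: the integral
  rw [← hK] at hlowk hintk hkL
  have hlow2 : ∫ t in (0 : ℝ)..K, f t ≤ C1 ^ 4 * K ^ 5 := by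
    have h4 : ∫ t in (0 : ℝ)..K, f t ≤ ∫ _ in (0 : ℝ)..K, (C1 * K) ^ 4 := by
      apply intervalIntegral.integral_mono_on hK0.le (hfi 0 K)
      · exact intervalIntegrable_const
      · intro x _
        rw [hf]
        exact pow_le_pow_left₀ (norm_nonneg _) (hlowk x) 4
    rw [intervalIntegral.integral_const, smul_eq_mul] at h4
    refine h4.trans (le_of_eq ?_)
    ring
  obtain ⟨B, hB⟩ : ∃ B : ℝ, B = C2 * K ^ (ε / 2) * (K ^ 5 + K ^ 6 / K ^ (2 * b) * T ^ (b - 1)) :=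
    ⟨_, rfl⟩
  have hB0 : 0 ≤ B := by
    rw [hB]
    positivity
  have hchain : ∀ n : ℕ, (∀ i < n, K * 2 ^ i ≤ T) →
      ∫ t in (0 : ℝ)..(K * 2 ^ n), f t ≤ C1 ^ 4 * K ^ 5 + n * B := by
    intro n
    induction n with
    | zero =>
      intro _
      simpa using hlow2
    | succ n ih =>
      intro hn
      have h4 := ih (fun i hi => hn i (by omega))
      have h5 := hn n (by omega)
      have h6 : K ≤ K * 2 ^ n := by
        have : (1 : ℝ) ≤ 2 ^ n := one_le_pow₀ (by norm_num)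
        nlinarith
      have h7 := hintk (K * 2 ^ n) h6 (by rw [← hK3]; exact h5.trans hTK)
      have h8 : (K * 2 ^ (n + 1) : ℝ) = 2 * (K * 2 ^ n) := by
        rw [pow_succ]
        ring
      rw [h8, ← intervalIntegral.integral_add_adjacent_intervals (hfi 0 (K * 2 ^ n)) (hfi _ _)]
      have h9 : ∫ t in (K * 2 ^ n)..(2 * (K * 2 ^ n)), f t ≤ B := by
        rw [hf]
        refine h7.trans ?_
        rw [hB]
        obtain ⟨x, hx⟩ : ∃ x : ℝ, x = K * 2 ^ n := ⟨_, rfl⟩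
        rw [← hx] at h5 h6 ⊢
        have hx0 : 0 < x := by linarith
        have h10 : x ^ (b - 1) ≤ T ^ (b - 1) :=
          Real.rpow_le_rpow hx0.le h5 hb1.le
        have h11 : K ^ 6 / x ≤ K ^ 5 := by
          rw [div_le_iff₀ hx0]
          have h12 : K ^ 5 * K ≤ K ^ 5 * x := mul_le_mul_of_nonneg_left h6 (by positivity)
          linarith [h12, (by ring : K ^ 6 = K ^ 5 * K)]
        have h13 : K ^ 6 / x * (x / K ^ 2) ^ b = K ^ 6 / K ^ (2 * b) * x ^ (b - 1) := by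
          rw [Real.div_rpow hx0.le (by positivity), Real.rpow_sub hx0, Real.rpow_one]
          have h14 : (K ^ 2) ^ b = K ^ (2 * b) := by
            rw [← Real.rpow_natCast, ← Real.rpow_mul hK0.le]
            norm_num
          rw [h14]
          have h15 : 0 < K ^ (2 * b) := by positivity
          field_simp
        have h16 : K ^ 6 / x * (1 + (x / K ^ 2) ^ b)
            ≤ K ^ 5 + K ^ 6 / K ^ (2 * b) * T ^ (b - 1) := by
          rw [mul_add, mul_one, h13]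
          have h17 : K ^ 6 / K ^ (2 * b) * x ^ (b - 1) ≤ K ^ 6 / K ^ (2 * b) * T ^ (b - 1) :=
            mul_le_mul_of_nonneg_left h10 (by positivity)
          linarith
        have h18 : C2 * K ^ (ε / 2) * (K ^ 6 / x) * (1 + (x / K ^ 2) ^ b)
            = C2 * K ^ (ε / 2) * (K ^ 6 / x * (1 + (x / K ^ 2) ^ b)) := by ring
        rw [h18]
        exact mul_le_mul_of_nonneg_left h16 (by positivity)
      push_cast
      linarith
  have hK2k : K * 2 ^ (2 * k) = K ^ (3 : ℝ) := by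
    rw [hK3, pow_mul', ← hK]
    ring
  have hex : ∃ n : ℕ, T ≤ K * 2 ^ n := by
    refine ⟨2 * k, ?_⟩
    rw [hK2k]
    exact hTK
  obtain ⟨n, hn1, hn2, hn3⟩ : ∃ n : ℕ, T ≤ K * 2 ^ n ∧ n ≤ 2 * k ∧ ∀ i < n, K * 2 ^ i ≤ T := by
    refine ⟨Nat.find hex, Nat.find_spec hex, Nat.find_min' hex ?_, fun i hi => ?_⟩
    · rw [hK2k]
      exact hTK
    · exact (not_le.mp (Nat.find_min hex hi)).le
  have hint1 : ∫ t in (0 : ℝ)..T, f t ≤ C1 ^ 4 * K ^ 5 + 2 * k * B := by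
    have h4 := hchain n hn3
    have h5 : ∫ t in (0 : ℝ)..T, f t ≤ ∫ t in (0 : ℝ)..(K * 2 ^ n), f t := by
      apply intervalIntegral.integral_mono_interval le_rfl hT0.le hn1
      · exact Filter.Eventually.of_forall hf0
      · exact hfi _ _
    have h6 : (n : ℝ) * B ≤ 2 * k * B := by
      apply mul_le_mul_of_nonneg_right _ hB0
      exact_mod_cast hn2
    linarith
  -- step 3: exponents
  have hK5 : K ^ (5 : ℝ) = K ^ 5 := by
    rw [← Real.rpow_natCast]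
    norm_num
  have hK6 : K ^ (6 : ℝ) = K ^ 6 := by
    rw [← Real.rpow_natCast]
    norm_num
  have hTb : K ^ 6 / K ^ (2 * b) * T ^ (b - 1) = K ^ 5 := by
    rw [hT, ← Real.rpow_mul hK0.le, hab, ← hK6, ← hK5, ← Real.rpow_sub hK0, ← Real.rpow_add hK0]
    congr 1
    ring
  have hB2 : B = 2 * C2 * K ^ (ε / 2) * K ^ 5 := by
    rw [hB, hTb]
    ring
  have hkB : 2 * (k : ℝ) * B ≤ 4 * C2 * L * K ^ (5 + ε) := by
    have h4 : (k : ℝ) * B ≤ (L * K ^ (ε / 2)) * (2 * C2 * K ^ (ε / 2) * K ^ 5) :=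
      mul_le_mul hkL hB2.le hB0 (by positivity)
    have h5 : K ^ (5 + ε) = K ^ (ε / 2) * K ^ (ε / 2) * K ^ 5 := by
      rw [← hK5, ← Real.rpow_add hK0, ← Real.rpow_add hK0]
      congr 1
      ring
    rw [h5]
    nlinarith
  have h72 : K ^ 5 ≤ K ^ (5 + ε) := by
    rw [← hK5]
    exact Real.rpow_le_rpow_of_exponent_le hK1 (by linarith)
  have hint2 : ∫ t in (0 : ℝ)..T, f t ≤ (C1 ^ 4 + 4 * C2 * L) * K ^ (5 + ε) := by
    have : C1 ^ 4 * K ^ 5 ≤ C1 ^ 4 * K ^ (5 + ε) :=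
      mul_le_mul_of_nonneg_left h72 (by positivity)
    nlinarith
  rw [← hK]
  refine hQ2.trans ?_
  have h4 : K ^ (5 - a + ε) = K ^ (5 + ε) / T := by
    rw [hT, ← Real.rpow_sub hK0]
    congr 1
    ring
  rw [h4]
  calc 16 * c0 ^ 4 / T * ∫ t in (0 : ℝ)..T, f t
      ≤ 16 * c0 ^ 4 / T * ((C1 ^ 4 + 4 * C2 * L) * K ^ (5 + ε)) := by
        apply mul_le_mul_of_nonneg_left hint2
        positivity
    _ = 16 * c0 ^ 4 * (C1 ^ 4 + 4 * C2 * L) * (K ^ (5 + ε) / T) := by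
        ring

end Pool.Agent.Lib.MP_3ee548_nt.RS.H70
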