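import Pool.Agent.Lib.MP_3ee548_nt.RS.Iface

/-!
# Module PC2 of the RS board (MP_3ee548_nt): the count for `r = 2` on `I n`
-/

set_option autoImplicit false

open scoped BigOperators
open Classical

namespace Pool.Agent.Lib.MP_3ee548_nt.RS.H70

open Pool.Agent.Lib.MP_3ee548_nt.RS

lemma q_mono (lam : ℕ → ℝ) (D D' : Finset ℕ) (T : ℝ) (h : D ⊆ D') :
    Q lam D T ≤ Q lam D' T := by
  unfold Q PC
  have : (((D ×ˢ D) ×ˢ (D ×ˢ D)).filter (fun p : (ℕ × ℕ) × (ℕ × ℕ) =>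
      |(lam p.1.1 + lam p.1.2) - (lam p.2.1 + lam p.2.2)| ≤ 1 / T)).card ≤
      (((D' ×ˢ D') ×ˢ (D' ×ˢ D')).filter (fun p : (ℕ × ℕ) × (ℕ × ℕ) =>
      |(lam p.1.1 + lam p.1.2) - (lam p.2.1 + lam p.2.2)| ≤ 1 / T)).card := by
    apply Finset.card_le_card
    intro p hp
    rw [Finset.mem_filter] at hp ⊢
    refine ⟨?_, hp.2⟩
    simp only [Finset.mem_product] at hp ⊢
    exact ⟨⟨h hp.1.1.1, h hp.1.1.2⟩, ⟨h hp.1.2.1, h hp.1.2.2⟩⟩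
  exact_mod_cast this

lemma pc_eq_q (n : ℕ) (T : ℝ) : PC (sig 2) (IV 2 n) T ≤ Q sqf (I n) T := by
  unfold Q PC
  have : ((IV 2 n ×ˢ IV 2 n).filter (fun p : (Fin 2 → ℕ) × (Fin 2 → ℕ) =>
      |sig 2 p.1 - sig 2 p.2| ≤ 1 / T)).card ≤
      (((I n ×ˢ I n) ×ˢ (I n ×ˢ I n)).filter (fun p : (ℕ × ℕ) × (ℕ × ℕ) =>
      |(sqf p.1.1 + sqf p.1.2) - (sqf p.2.1 + sqf p.2.2)| ≤ 1 / T)).card := by
    apply Finset.card_le_card_of_injOn
      (fun p : (Fin 2 → ℕ) × (Fin 2 → ℕ) => ((p.1 0, p.1 1), (p.2 0, p.2 1)))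
    · intro p hp
      rw [Finset.mem_coe, Finset.mem_filter, Finset.mem_product] at hp
      rw [Finset.mem_coe, Finset.mem_filter]
      obtain ⟨⟨h1, h2⟩, h3⟩ := hp
      unfold IV at h1 h2
      rw [Fintype.mem_piFinset] at h1 h2
      refine ⟨?_, ?_⟩
      · simp only [Finset.mem_product]
        exact ⟨⟨h1 0, h1 1⟩, ⟨h2 0, h2 1⟩⟩
      · have e1 : ∀ x : Fin 2 → ℕ, sig 2 x = sqf (x 0) + sqf (x 1) := by
          intro x
          unfold sig sqf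
          rw [Fin.sum_univ_two]
        rw [e1, e1] at h3
        exact h3
    · intro p _ q _ hpq
      simp only [Prod.mk.injEq] at hpq
      obtain ⟨⟨h1, h2⟩, ⟨h3, h4⟩⟩ := hpq
      apply Prod.ext
      · funext i
        fin_cases i
        · exact h1
        · exact h2
      · funext i
        fin_cases i
        · exact h3
        · exact h4
  exact_mod_cast this

lemma norm_add_four (a b : ℂ) : ‖a + b‖ ^ 4 ≤ 8 * (‖a‖ ^ 4 + ‖b‖ ^ 4) := by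
  have h1 : ‖a + b‖ ^ 4 ≤ (‖a‖ + ‖b‖) ^ 4 :=
    pow_le_pow_left₀ (norm_nonneg _) (norm_add_le a b) 4
  refine h1.trans ?_
  nlinarith [sq_nonneg (‖a‖ - ‖b‖), sq_nonneg (‖a‖ ^ 2 - ‖b‖ ^ 2),
    mul_nonneg (sq_nonneg (‖a‖ - ‖b‖)) (sq_nonneg (‖a‖ + ‖b‖)), sq_nonneg (‖a‖ + ‖b‖),
    mul_nonneg (sq_nonneg (‖a‖ - ‖b‖)) (sq_nonneg (‖a‖ - ‖b‖)),
    mul_nonneg (sq_nonneg (‖a‖ - ‖b‖)) (add_nonneg (sq_nonneg ‖a‖) (sq_nonneg ‖b‖))]

lemma s_cont (D : Finset ℕ) : Continuous (fun t : ℝ => ∑ i ∈ D, e (t * sqf i)) := by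
  unfold e
  refine continuous_finsetSum _ (fun m _ => ?_)
  fun_prop

lemma q_union (h1 : Qpos1Statement) (C : ℝ) (hC : 0 < C)
    (h2 : ∀ (lam : ℕ → ℝ) (c : ℕ → ℂ) (D : Finset ℕ) (T : ℝ), 0 < T → (∀ i ∈ D, ‖c i‖ ≤ 1) →
      ∫ t in (-T)..T, ‖∑ i ∈ D, c i * e (t * lam i)‖ ^ 4 ≤ C * T * Q lam D T)
    (D D' : Finset ℕ) (T : ℝ) (hT : 0 < T) :
    Q sqf (D ∪ D') T ≤ 64 * C * (Q sqf D T + Q sqf D' T) := by
  have hq := h1 sqf (fun _ => 1) (D ∪ D') (D ∪ D') T hT (Finset.Subset.refl _)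
    (fun _ _ => by norm_num) (fun _ _ => le_refl _)
  have hA := h2 sqf (fun _ => 1) D T hT (fun _ _ => by simp)
  have hB := h2 sqf (fun _ => 1) (D' \ D) T hT (fun _ _ => by simp)
  have hB2 : Q sqf (D' \ D) T ≤ Q sqf D' T := q_mono sqf _ _ T Finset.sdiff_subset
  simp only [Complex.ofReal_one, one_mul] at hq hA hB
  have hsum : ∀ t : ℝ, ∑ i ∈ D ∪ D', e (t * sqf i)
      = ∑ i ∈ D, e (t * sqf i) + ∑ i ∈ D' \ D, e (t * sqf i) := by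
    intro t
    rw [← Finset.union_sdiff_self_eq_union, Finset.sum_union Finset.disjoint_sdiff]
  have hint : ∫ t in (-T)..T, ‖∑ i ∈ D ∪ D', e (t * sqf i)‖ ^ 4
      ≤ ∫ t in (-T)..T, 8 * (‖∑ i ∈ D, e (t * sqf i)‖ ^ 4 + ‖∑ i ∈ D' \ D, e (t * sqf i)‖ ^ 4) := by
    apply intervalIntegral.integral_mono_on (by linarith)
    · exact (((s_cont (D ∪ D')).norm).pow 4).intervalIntegrable _ _
    · exact (continuous_const.mul ((((s_cont D).norm).pow 4).add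
        (((s_cont (D' \ D)).norm).pow 4))).intervalIntegrable _ _
    · intro t _
      rw [hsum t]
      exact norm_add_four _ _
  have hadd : ∫ t in (-T)..T, (‖∑ i ∈ D, e (t * sqf i)‖ ^ 4 + ‖∑ i ∈ D' \ D, e (t * sqf i)‖ ^ 4)
      = (∫ t in (-T)..T, ‖∑ i ∈ D, e (t * sqf i)‖ ^ 4)
        + ∫ t in (-T)..T, ‖∑ i ∈ D' \ D, e (t * sqf i)‖ ^ 4 :=
    intervalIntegral.integral_add
      ((((s_cont D).norm).pow 4).intervalIntegrable _ _)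
      ((((s_cont (D' \ D)).norm).pow 4).intervalIntegrable _ _)
  rw [intervalIntegral.integral_const_mul, hadd] at hint
  refine hq.trans ?_
  have h3 : ∫ t in (-T)..T, ‖∑ i ∈ D ∪ D', e (t * sqf i)‖ ^ 4
      ≤ 8 * (C * T * Q sqf D T + C * T * Q sqf D' T) := by
    have h4 : C * T * Q sqf (D' \ D) T ≤ C * T * Q sqf D' T :=
      mul_le_mul_of_nonneg_left hB2 (by positivity)
    linarith
  calc 8 / T * ∫ t in (-T)..T, ‖∑ i ∈ D ∪ D', e (t * sqf i)‖ ^ 4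
      ≤ 8 / T * (8 * (C * T * Q sqf D T + C * T * Q sqf D' T)) :=
        mul_le_mul_of_nonneg_left h3 (by positivity)
    _ = 64 * C * (Q sqf D T + Q sqf D' T) := by
        field_simp
        ring

lemma i_sub (n : ℕ) (hn : 1 ≤ n) :
    I n ⊆ blk (Nat.log 2 n) ∪ blk (Nat.log 2 n - 1) := by
  intro m hm
  unfold I at hm
  rw [Finset.mem_filter, Finset.mem_Icc] at hm
  obtain ⟨⟨h1, h2⟩, h3⟩ := hm
  have hlow : 2 ^ (Nat.log 2 n) ≤ n := Nat.pow_log_le_self 2 (by omega)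
  have hup : n < 2 ^ (Nat.log 2 n + 1) := Nat.lt_pow_succ_log_self (by norm_num) n
  obtain ⟨k, hk⟩ : ∃ k : ℕ, k = Nat.log 2 n := ⟨_, rfl⟩
  rw [← hk] at hlow hup ⊢
  unfold blk
  rw [Finset.mem_union, Finset.mem_Ico, Finset.mem_Ico]
  rcases Nat.eq_zero_or_pos k with h0 | h0
  · left
    rw [h0] at hlow hup ⊢
    simp only [pow_zero, zero_add, pow_one] at hlow hup ⊢
    omega
  · obtain ⟨j, hj⟩ : ∃ j, k = j + 1 := ⟨k - 1, by omega⟩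
    rw [hj] at hlow hup ⊢
    rw [Nat.add_sub_cancel]
    rw [pow_succ] at hlow
    by_cases h5 : 2 ^ (j + 1) ≤ m
    · left
      exact ⟨h5, by omega⟩
    · right
      exact ⟨by omega, by omega⟩

theorem pc2 (h1 : IterStatement) (h2 : CovStatement) (h3 : Qpos1Statement)
    (h4 : Qpos2Statement) : Pc2Statement := by
  intro ε hε
  obtain ⟨C1, hC1, hQ2⟩ := h4
  obtain ⟨C2, hC2, hit⟩ := h1 ε hε
  refine ⟨64 * C1 * (8 * C2), by positivity, fun n T hn hT => ?_⟩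
  have hn1 : (1 : ℝ) ≤ n := by exact_mod_cast hn
  have hn0 : (0 : ℝ) < n := by linarith
  -- one block
  have hblock : ∀ k : ℕ, 2 ^ k ≤ n →
      Q sqf (blk k) T ≤ 4 * C2 * ((n : ℝ) ^ ε * ((n : ℝ) ^ 2 + (n : ℝ) ^ (7 / 2 : ℝ) / T)) := by
    intro k hk
    have hK := hit k
    obtain ⟨K, hKd⟩ : ∃ K : ℝ, K = (2 : ℝ) ^ k := ⟨_, rfl⟩
    rw [← hKd] at hK
    have hK1 : 1 ≤ K := by
      rw [hKd]
      exact one_le_pow₀ (by norm_num)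
    have hK0 : 0 < K := by linarith
    have hKn : K ≤ n := by
      rw [hKd]
      exact_mod_cast hk
    have hcov := h2 (ℕ × ℕ) (fun p : ℕ × ℕ => sqf p.1 + sqf p.2) (blk k ×ˢ blk k) T
      (K ^ (3 / 2 : ℝ)) hT (by positivity)
    change Q sqf (blk k) T ≤ 4 * (1 + K ^ (3 / 2 : ℝ) / T) * Q sqf (blk k) (K ^ (3 / 2 : ℝ)) at hcov
    have h5 : 4 * (1 + K ^ (3 / 2 : ℝ) / T) * Q sqf (blk k) (K ^ (3 / 2 : ℝ))
        ≤ 4 * (1 + K ^ (3 / 2 : ℝ) / T) * (C2 * K ^ (2 + ε)) :=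
      mul_le_mul_of_nonneg_left hK (by positivity)
    refine hcov.trans (h5.trans ?_)
    have e1 : K ^ (2 + ε) = K ^ ε * K ^ 2 := by
      rw [Real.rpow_add hK0, ← Real.rpow_natCast K 2]
      norm_num
      ring
    have e2 : K ^ (3 / 2 : ℝ) * K ^ (2 + ε) = K ^ ε * K ^ (7 / 2 : ℝ) := by
      rw [← Real.rpow_add hK0, ← Real.rpow_add hK0]
      congr 1
      ring
    have e3 : 4 * (1 + K ^ (3 / 2 : ℝ) / T) * (C2 * K ^ (2 + ε))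
        = 4 * C2 * (K ^ (2 + ε) + K ^ (3 / 2 : ℝ) * K ^ (2 + ε) / T) := by
      ring
    rw [e3, e2, e1]
    have f1 : K ^ ε ≤ (n : ℝ) ^ ε := Real.rpow_le_rpow hK0.le hKn hε.le
    have f2 : K ^ 2 ≤ (n : ℝ) ^ 2 := pow_le_pow_left₀ hK0.le hKn 2
    have f3 : K ^ (7 / 2 : ℝ) ≤ (n : ℝ) ^ (7 / 2 : ℝ) :=
      Real.rpow_le_rpow hK0.le hKn (by norm_num)
    have f4 : K ^ ε * K ^ 2 + K ^ ε * K ^ (7 / 2 : ℝ) / T
        ≤ (n : ℝ) ^ ε * ((n : ℝ) ^ 2 + (n : ℝ) ^ (7 / 2 : ℝ) / T) := by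
      have g1 : K ^ ε * K ^ 2 + K ^ ε * K ^ (7 / 2 : ℝ) / T
          = K ^ ε * (K ^ 2 + K ^ (7 / 2 : ℝ) / T) := by ring
      rw [g1]
      have g2 : K ^ 2 + K ^ (7 / 2 : ℝ) / T ≤ (n : ℝ) ^ 2 + (n : ℝ) ^ (7 / 2 : ℝ) / T :=
        add_le_add f2 (div_le_div_of_nonneg_right f3 hT.le)
      exact mul_le_mul f1 g2 (by positivity) (by positivity)
    exact mul_le_mul_of_nonneg_left f4 (by positivity)
  have hlow : 2 ^ (Nat.log 2 n) ≤ n := Nat.pow_log_le_self 2 (by omega)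
  have hlow2 : 2 ^ (Nat.log 2 n - 1) ≤ n :=
    le_trans (Nat.pow_le_pow_right (by norm_num) (by omega)) hlow
  have hb1 := hblock _ hlow
  have hb2 := hblock _ hlow2
  have hu := q_union h3 C1 hC1 hQ2 (blk (Nat.log 2 n)) (blk (Nat.log 2 n - 1)) T hT
  refine (pc_eq_q n T).trans ((q_mono sqf _ _ T (i_sub n hn)).trans (hu.trans ?_))
  calc 64 * C1 * (Q sqf (blk (Nat.log 2 n)) T + Q sqf (blk (Nat.log 2 n - 1)) T)
      ≤ 64 * C1 * (4 * C2 * ((n : ℝ) ^ ε * ((n : ℝ) ^ 2 + (n : ℝ) ^ (7 / 2 : ℝ) / T))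
        + 4 * C2 * ((n : ℝ) ^ ε * ((n : ℝ) ^ 2 + (n : ℝ) ^ (7 / 2 : ℝ) / T))) :=
        mul_le_mul_of_nonneg_left (add_le_add hb1 hb2) (by positivity)
    _ = 64 * C1 * (8 * C2) * (n : ℝ) ^ ε * ((n : ℝ) ^ 2 + (n : ℝ) ^ (7 / 2 : ℝ) / T) := by
        ring

end Pool.Agent.Lib.MP_3ee548_nt.RS.H70
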